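import Pool.Agent.Helper28.ND.Spec2
import Pool.Agent.H62.ND.Base
import Pool.Agent.Helper87.ND.MOLG
import Pool.Agent.Helper89.ND.ENER

/-!
# ND2: part FLQ, the `L^q` norm does not increase when there is no source
-/

open MeasureTheory Set Filter Topology
open scoped ENNReal NNReal Convolution

namespace Pool.Agent.Helper20.ND.FLQ

open Pool.Agent.Helper28.ND Pool.Agent.H62.ND

noncomputable section

/-- the regularised power -/
def gg (q e : ℝ) (s : ℝ) : ℝ := (s ^ 2 + e) ^ (q / 2)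

theorem gg_smooth {q e : ℝ} (he : 0 < e) : ContDiff ℝ 2 (gg q e) := by
  unfold gg
  refine ContDiff.rpow_const_of_ne (by fun_prop) fun x => ?_
  positivity

theorem gg_deriv {q e : ℝ} (he : 0 < e) (s : ℝ) :
    HasDerivAt (gg q e) (q * s * (s ^ 2 + e) ^ (q / 2 - 1)) s := by
  have h1 : HasDerivAt (fun s : ℝ => s ^ 2 + e) (2 * s) s := by
    simpa using (hasDerivAt_pow 2 s).add_const e
  have h2 := h1.rpow_const (p := q / 2) (Or.inl (by positivity))
  have h3 : 2 * s * (q / 2) * (s ^ 2 + e) ^ (q / 2 - 1) = q * s * (s ^ 2 + e) ^ (q / 2 - 1) := by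
    ring
  rw [h3] at h2
  exact h2

theorem gg_deriv_eq {q e : ℝ} (he : 0 < e) :
    deriv (gg q e) = fun s => q * s * (s ^ 2 + e) ^ (q / 2 - 1) :=
  funext fun s => (gg_deriv he s).deriv

theorem gg_deriv2_nonneg {q e : ℝ} (hq : 2 ≤ q) (he : 0 < e) (s : ℝ) :
    0 ≤ deriv (deriv (gg q e)) s := by
  rw [gg_deriv_eq he]
  have h1 : HasDerivAt (fun s : ℝ => s ^ 2 + e) (2 * s) s := by
    simpa using (hasDerivAt_pow 2 s).add_const e
  have h2 := h1.rpow_const (p := q / 2 - 1) (Or.inl (by positivity))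
  have h3 : HasDerivAt (fun s : ℝ => q * s) q s := by
    simpa using (hasDerivAt_id s).const_mul q
  have h4 := h3.mul h2
  have h5 : HasDerivAt (fun s : ℝ => q * s * (s ^ 2 + e) ^ (q / 2 - 1))
      (q * (s ^ 2 + e) ^ (q / 2 - 1) + q * s * (2 * s * (q / 2 - 1) * (s ^ 2 + e) ^ (q / 2 - 1 - 1)))
      s := h4
  rw [h5.deriv]
  have h6 : 0 ≤ q / 2 - 1 := by linarith
  have h7 : 0 ≤ q := by linarith
  have h8 : q * s * (2 * s * (q / 2 - 1) * (s ^ 2 + e) ^ (q / 2 - 1 - 1))
      = 2 * q * (q / 2 - 1) * s ^ 2 * (s ^ 2 + e) ^ (q / 2 - 1 - 1) := by ring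
  rw [h8]
  positivity

theorem gg_deriv_cont {q e : ℝ} (he : 0 < e) : Continuous (deriv (gg q e)) :=
  (gg_smooth he).continuous_deriv (by norm_num)

/-- Lipschitz in space and continuous in time gives jointly continuous. -/
theorem joint {d : ℕ} {u : ℝ → (Fin d → ℝ) → ℝ} {C : ℝ}
    (hC : ∀ t x y, |u t x - u t y| ≤ C * ‖x - y‖) (hc : ∀ x, Continuous (fun t => u t x)) :
    Continuous (U u) := by
  rw [continuous_iff_continuousAt]
  rintro ⟨t, x⟩
  rw [ContinuousAt, tendsto_iff_norm_sub_tendsto_zero]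
  have h1 : Tendsto (fun z : ℝ × (Fin d → ℝ) => C * ‖z.2 - x‖ + |u z.1 x - u t x|) (𝓝 (t, x))
      (𝓝 0) := by
    have h2 : Continuous (fun z : ℝ × (Fin d → ℝ) => C * ‖z.2 - x‖ + |u z.1 x - u t x|) := by
      have := (hc x).comp (continuous_fst (X := ℝ) (Y := Fin d → ℝ))
      have h3 : Continuous (fun z : ℝ × (Fin d → ℝ) => u z.1 x) := this
      fun_prop
    have h4 := h2.tendsto (t, x)
    simpa using h4
  refine squeeze_zero (fun _ => norm_nonneg _) (fun z => ?_) h1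
  rw [Real.norm_eq_abs]
  have h5 : U u z - U u (t, x) = (u z.1 z.2 - u z.1 x) + (u z.1 x - u t x) := by
    unfold U; ring
  rw [h5]
  exact (abs_add_le _ _).trans (add_le_add (hC _ _ _) le_rfl)

/-- pointwise convergence of mollifications of continuous functions -/
theorem mol_tendsto {d : ℕ} {D : ℝ → (Fin d → ℝ) → ℝ} (hD : Continuous (U D))
    (t : ℝ) (x : Fin d → ℝ) : Tendsto (fun n => mol n D t x) atTop (𝓝 (D t x)) := by
  have h1 : Tendsto (fun n : ℕ => (bmp d n).rOut) atTop (𝓝 0) := by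
    have h2 : ∀ n : ℕ, (bmp d n).rOut = (1 / 4) * (1 / ((n : ℝ) + 1)) := by
      intro n
      show 1 / (4 * ((n : ℝ) + 1)) = _
      field_simp
    simp_rw [h2]
    have := tendsto_one_div_add_atTop_nhds_zero_nat (𝕜 := ℝ)
    simpa using this.const_mul (1 / 4 : ℝ)
  have := Pool.Agent.Helper87.ND.MOLG.haarE d
  have h3 := ContDiffBump.convolution_tendsto_right_of_continuous
    (μ := (volume : Measure (ℝ × (Fin d → ℝ)))) h1 hD (t, x)
  exact h3

theorem abs_rpow_eq (a q : ℝ) : (a ^ 2) ^ (q / 2) = |a| ^ q := by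
  rw [← sq_abs, ← Real.rpow_natCast, ← Real.rpow_mul (abs_nonneg a)]
  congr 1
  push_cast
  ring

/-- the reversed time -/
def rv (T : ℝ) {d : ℕ} (z : ℝ × (Fin d → ℝ)) : ℝ × (Fin d → ℝ) := (1 + T - z.1, z.2)

theorem meas_rv (T : ℝ) {d : ℕ} : Measurable (rv T (d := d)) := by
  unfold rv; fun_prop

theorem src {d : ℕ} {T : ℝ} {b : ℝ → (Fin d → ℝ) → (Fin d → ℝ)}
    {f : ℝ → (Fin d → ℝ) → ℝ} {u : ℝ → (Fin d → ℝ) → ℝ} {v : ℝ → (Fin d → ℝ) → (Fin d → ℝ)}
    (h : FSol d T b f u v) : Src (1 + T) (RF T b f v) := by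
  have hd := h.dat
  refine ⟨?_, ?_, ?_, ?_⟩
  · have m1 : ∀ i : Fin d, Measurable (fun z : ℝ × (Fin d → ℝ) => U b (rv T z) i) := fun i =>
      (measurable_pi_apply i).comp (hd.mb.comp (meas_rv T))
    have m2 : ∀ i : Fin d, Measurable (fun z : ℝ × (Fin d → ℝ) => U v (rv T z) i) := fun i =>
      (measurable_pi_apply i).comp (h.mv.comp (meas_rv T))
    have : U (RF T b f v) = fun z => U f (rv T z) - ∑ i, U b (rv T z) i * U v (rv T z) i := rfl
    rw [this]
    exact (hd.mf.comp (meas_rv T)).sub (Finset.measurable_sum _ fun i _ => (m1 i).mul (m2 i))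
  · intro t x k
    have h1 := hd.pb (1 + T - t) x k
    have h2 := h.pv (1 + T - t) x k
    have h3 := hd.pf (1 + T - t) x k
    unfold RF
    rw [h1, h2, h3]
  · obtain ⟨B, hB⟩ := hd.bdd
    obtain ⟨C, hC⟩ := h.bv
    refine ⟨B + ∑ _i : Fin d, B * C, fun t x => ?_⟩
    unfold RF
    refine (abs_sub _ _).trans (add_le_add (hB _ _).1 ?_)
    refine (Finset.abs_sum_le_sum_abs _ _).trans (Finset.sum_le_sum fun i _ => ?_)
    rw [abs_mul]
    have h1 := (hB (1 + T - t) x).2 i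
    exact mul_le_mul h1 (hC _ x i) (abs_nonneg _) ((abs_nonneg _).trans h1)
  · intro t ht x
    have ht' : 1 + T - t ≤ 0 ∨ T ≤ 1 + T - t := by
      rcases ht with h1 | h1
      · right; linarith
      · left; linarith
    unfold RF
    rw [hd.sf _ ht' x]
    simp [hd.sb _ ht' x]

theorem step (hWEQ : S_WEQ) (hKB : S_KB) (hMOLG : S_MOLG) (hMOLD : S_MOLD) (hENER : S_ENER)
    {d : ℕ} {T : ℝ} {b : ℝ → (Fin d → ℝ) → (Fin d → ℝ)}
    {f : ℝ → (Fin d → ℝ) → ℝ} {u : ℝ → (Fin d → ℝ) → ℝ} {v : ℝ → (Fin d → ℝ) → (Fin d → ℝ)}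
    (hT : 0 < T) (h : FSol d T b f u v) (hcont : Continuous (U u))
    {q e : ℝ} (hq : 2 ≤ q) (he : 0 < e)
    {s t : ℝ} (hs : 0 ≤ s) (hst : s ≤ t) (htT : t ≤ T)
    (hf : ∀ r, s < r → r < t → ∀ x, f r x = 0) :
    ∫ x in Q d, gg q e (u t x) ≤ ∫ x in Q d, gg q e (u s x) := by
  have hS0 : 0 < 1 + T := by linarith
  set S := 1 + T with hS
  set F := RF T b f v with hF
  have hsrc : Src S F := src h
  obtain ⟨bΦ, bV, hz, -⟩ := hKB d S F hS0 hsrc
  have bF : BMP F := bmp_of_src hsrc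
  set w := Phi S F with hw
  have hwu : ∀ τ x, w τ x = u (S - τ) x := by
    intro τ x
    have h1 := h.eu (S - τ) x
    rw [h1]
    have h2 : 1 + T - (S - τ) = τ := by rw [hS]; ring
    rw [h2]
  have hvv : ∀ (i : Fin d) τ x, Vel S F i τ x = v (S - τ) x i := by
    intro i τ x
    have h1 := h.ev (S - τ) x i
    rw [h1]
    have h2 : 1 + T - (S - τ) = τ := by rw [hS]; ring
    rw [h2]
  have hwc : Continuous (U w) := by
    have h1 : U w = fun z => U u (S - z.1, z.2) := by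
      funext z
      exact hwu z.1 z.2
    rw [h1]
    exact hcont.comp (by fun_prop)
  obtain ⟨B1, hB10, hB1, hB1'⟩ := mol_bdd hMOLG bΦ
  obtain ⟨B2, hB20, hB2, hB2'⟩ := mol_bdd hMOLG bF
  choose B3 hB30 hB3 hB3' using fun i => mol_bdd hMOLG (bV i)
  obtain ⟨Bb, hBb⟩ := h.dat.bdd
  set g := gg q e with hg
  have gc : ContDiff ℝ 2 g := gg_smooth he
  have g0c : Continuous g := gc.continuous
  have g1c : Continuous (deriv g) := gg_deriv_cont he
  have g2c : Continuous (deriv (deriv g)) := by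
    have h1 : ContDiff ℝ (1 + 1) g := by
      have : (1 + 1 : WithTop ℕ∞) = 2 := by norm_num
      rw [this]; exact gc
    have h2 : ContDiff ℝ 1 (deriv g) := (contDiff_succ_iff_deriv.mp h1).2.2
    exact h2.continuous_deriv le_rfl
  obtain ⟨M0, hM0⟩ := (isCompact_Icc (a := -B1) (b := B1)).exists_bound_of_continuousOn
    g0c.continuousOn
  obtain ⟨M1, hM1⟩ := (isCompact_Icc (a := -B1) (b := B1)).exists_bound_of_continuousOn
    g1c.continuousOn
  have M1pos : 0 ≤ M1 := (norm_nonneg _).trans (hM1 0 ⟨by linarith, hB10⟩)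
  set τ1 := S - t with hτ1
  set τ2 := S - s with hτ2
  have h1τ1 : 1 ≤ τ1 := by rw [hτ1, hS]; linarith
  have hτ12 : τ1 ≤ τ2 := by rw [hτ1, hτ2]; linarith
  set I := Ioo τ1 τ2 with hI
  have hIm : MeasurableSet I := measurableSet_Ioo
  have hIf : volume I ≠ ⊤ := by rw [hI, Real.volume_Ioo]; exact ENNReal.ofReal_ne_top
  have hI1 : ∀ z : ℝ × (Fin d → ℝ), z.1 ∈ I → 1 ≤ z.1 := fun z hz => h1τ1.trans hz.1.le
  -- drift terms
  set Dn : ℕ → ℝ × (Fin d → ℝ) → ℝ := fun n z =>
    ∑ i, U b (rv T z) i * U (mol n (Vel S F i)) z with hDn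
  set D0 : ℝ × (Fin d → ℝ) → ℝ := fun z => ∑ i, U b (rv T z) i * U (Vel S F i) z with hD0
  set H : ℕ → ℝ × (Fin d → ℝ) → ℝ := fun n z =>
    deriv g (U (mol n w) z) * (U (mol n F) z + Dn n z) with hH
  set K1 : ℕ → ℝ × (Fin d → ℝ) → ℝ := fun n z =>
    -(deriv g (U (mol n w) z) * U (mol n F) z) with hK1
  set K2 : ℕ → ℝ × (Fin d → ℝ) → ℝ := fun n z =>
    deriv (deriv g) (U (mol n w) z) * ∑ i, U (mol n (Vel S F i)) z ^ 2 with hK2
  set L : ℕ → ℝ × (Fin d → ℝ) → ℝ := fun n z =>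
    deriv g (U (mol n w) z) * Dn n z with hL
  have cw : ∀ n, Continuous (U (mol n w)) := fun n => mol_meas hMOLG bΦ n
  have cF : ∀ n, Continuous (U (mol n F)) := fun n => mol_meas hMOLG bF n
  have cV : ∀ n i, Continuous (U (mol n (Vel S F i))) := fun n i => mol_meas hMOLG (bV i) n
  have mb : ∀ i : Fin d, Measurable (fun z : ℝ × (Fin d → ℝ) => U b (rv T z) i) := fun i =>
    (measurable_pi_apply i).comp (h.dat.mb.comp (meas_rv T))
  have mDn : ∀ n, Measurable (Dn n) := fun n =>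
    Finset.measurable_sum _ fun i _ => (mb i).mul (cV n i).measurable
  have cK1 : ∀ n, Continuous (K1 n) := fun n => ((g1c.comp (cw n)).mul (cF n)).neg
  have cK2 : ∀ n, Continuous (K2 n) := fun n =>
    (g2c.comp (cw n)).mul (continuous_finsetSum _ fun i _ => (cV n i).pow 2)
  have bw : ∀ n (z : ℝ × (Fin d → ℝ)), z.1 ∈ I → U (mol n w) z ∈ Icc (-B1) B1 := fun n z hz =>
    abs_le.mp (hB1' n z.1 z.2 (hI1 z hz))
  have bg1 : ∀ n (z : ℝ × (Fin d → ℝ)), z.1 ∈ I → |deriv g (U (mol n w) z)| ≤ M1 :=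
    fun n z hz => hM1 _ (bw n z hz)
  have bDn : ∀ n (z : ℝ × (Fin d → ℝ)), z.1 ∈ I → |Dn n z| ≤ ∑ i, Bb * B3 i := by
    intro n z hz
    refine (Finset.abs_sum_le_sum_abs _ _).trans (Finset.sum_le_sum fun i _ => ?_)
    rw [abs_mul]
    have h1 := (hBb (1 + T - z.1) z.2).2 i
    exact mul_le_mul h1 (hB3' i n z.1 z.2 (hI1 z hz)) (abs_nonneg _) ((abs_nonneg _).trans h1)
  have mH : ∀ n, Measurable (H n) := fun n =>
    (g1c.comp (cw n)).measurable.mul ((cF n).measurable.add (mDn n))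
  have mL : ∀ n, Measurable (L n) := fun n => (g1c.comp (cw n)).measurable.mul (mDn n)
  have bH : ∀ n (z : ℝ × (Fin d → ℝ)), z.1 ∈ I → |H n z| ≤ M1 * (B2 + ∑ i, Bb * B3 i) := by
    intro n z hz
    rw [hH, abs_mul]
    refine mul_le_mul (bg1 n z hz) ((abs_add_le _ _).trans
      (add_le_add (hB2' n z.1 z.2 (hI1 z hz)) (bDn n z hz))) (abs_nonneg _) M1pos
  have bL : ∀ n (z : ℝ × (Fin d → ℝ)), z.1 ∈ I → |L n z| ≤ M1 * (∑ i, Bb * B3 i) := by
    intro n z hz
    rw [hL, abs_mul]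
    exact mul_le_mul (bg1 n z hz) (bDn n z hz) (abs_nonneg _) M1pos
  have iH : ∀ n, IntegrableOn (H n) (I ×ˢ Q d) := fun n => int_bdd hIm hIf (mH n) (bH n)
  have iL : ∀ n, IntegrableOn (L n) (I ×ˢ Q d) := fun n => int_bdd hIm hIf (mL n) (bL n)
  have iK : ∀ G : ℝ × (Fin d → ℝ) → ℝ, Continuous G → IntegrableOn G (I ×ˢ Q d) := by
    intro G hG
    have h1 := Pool.Agent.Helper89.ND.int_prod hG τ1 τ2 (s := I) Ioo_subset_Icc_self
    rw [Measure.prod_restrict, ← Measure.volume_eq_prod] at h1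
    exact h1
  have iK1 : ∀ n, IntegrableOn (K1 n) (I ×ˢ Q d) := fun n => iK _ (cK1 n)
  have iK2 : ∀ n, IntegrableOn (K2 n) (I ×ˢ Q d) := fun n => iK _ (cK2 n)
  have hn : ∀ (n : ℕ) (τ : ℝ), 1 ≤ τ → 1 / (4 * ((n : ℝ) + 1)) < τ := by
    intro n τ hτ
    refine lt_of_lt_of_le ?_ hτ
    rw [div_lt_one (by positivity)]
    have : (0 : ℝ) ≤ n := Nat.cast_nonneg n
    linarith
  have hpd : ∀ (n : ℕ) (τ : ℝ), 1 ≤ τ → ∀ (i : Fin d) (x : Fin d → ℝ),
      pd i (mol n w τ) x = mol n (Vel S F i) τ x := fun n τ hτ i x =>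
    (hMOLD d w (Vel S F i) bΦ (bV i)).2 i
      (fun φ hφ => (hWEQ d S F hS0 hsrc φ hφ).2 i) n τ x (hn n τ hτ)
  have hdt : ∀ (n : ℕ) (τ : ℝ), 1 ≤ τ → ∀ (x : Fin d → ℝ),
      dt (mol n w) τ x + lap (mol n w τ) x = - mol n F τ x := fun n τ hτ x =>
    (hMOLD d w F bΦ bF).1 (fun φ hφ => (hWEQ d S F hS0 hsrc φ hφ).1) n τ x (hn n τ hτ)
  -- the drift does not contribute
  have drift : ∀ n, ∫ z in I ×ˢ Q d, L n z = 0 := by
    intro n
    rw [← iter_eq (iL n)]
    have h1 : ∀ τ ∈ I, ∫ x in Q d, L n (τ, x) = 0 := by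
      intro τ hτ
      have hsm : ContDiff ℝ (⊤ : ℕ∞) (mol n w τ) :=
        Pool.Agent.Helper89.ND.diff_slice ((hMOLG d w bΦ).1 n).smooth τ
      have h2 : ContDiff ℝ 1 (fun x => g (mol n w τ x)) :=
        (gc.of_le (by norm_num)).comp (hsm.of_le (by exact_mod_cast le_top))
      have h3 : Per (fun x => g (mol n w τ x)) := by
        intro x k
        have := ((hMOLG d w bΦ).1 n).per τ x k
        show g _ = g _
        rw [this]
      have h4 := h.dat.db (S - τ) _ h2 h3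
      rw [← h4]
      congr 1
      funext x
      have h5 : ∀ i, pd i (fun x => g (mol n w τ x)) x
          = deriv g (mol n w τ x) * mol n (Vel S F i) τ x := by
        intro i
        rw [← hpd n τ (h1τ1.trans hτ.1.le) i x]
        unfold pd
        have h6 : HasFDerivAt (mol n w τ) (fderiv ℝ (mol n w τ) x) x :=
          ((hsm.differentiable (by simp)) x).hasFDerivAt
        have h7 : HasDerivAt g (deriv g (mol n w τ x)) (mol n w τ x) :=
          ((gc.differentiable (by norm_num)) _).hasDerivAt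
        have h8 := h7.comp_hasFDerivAt x h6
        have h9 : fderiv ℝ (fun x => g (mol n w τ x)) x
            = deriv g (mol n w τ x) • fderiv ℝ (mol n w τ) x := h8.fderiv
        rw [h9]
        simp
      show deriv g (U (mol n w) (τ, x)) * Dn n (τ, x) = _
      simp only [hDn, h5, Finset.mul_sum]
      refine Finset.sum_congr rfl fun i _ => ?_
      show deriv g (mol n w τ x) * (b (1 + T - τ) x i * mol n (Vel S F i) τ x) = _
      ring
    rw [setIntegral_congr_fun hIm h1]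
    simp
  -- the energy inequality
  have energy : ∀ n : ℕ, (∫ x in Q d, g (mol n w τ2 x)) - (∫ x in Q d, g (mol n w τ1 x))
      ≥ - ∫ z in I ×ˢ Q d, H n z := by
    intro n
    have h1 := hENER d (mol n w) g (fun _ => 0) ((hMOLG d w bΦ).1 n) gc contDiff_const τ1 τ2 hτ12
    simp only [sub_zero, deriv_const] at h1
    rw [h1]
    have h2 : ∫ t in Ioc τ1 τ2, ∫ x in Q d, (deriv g (mol n w t x) *
        (dt (mol n w) t x + lap (mol n w t) x)
        + deriv (deriv g) (mol n w t x) * ∑ i, (pd i (mol n w t) x) ^ 2) =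
        ∫ t in Ioc τ1 τ2, ∫ x in Q d, (K1 n (t, x) + K2 n (t, x)) := by
      refine setIntegral_congr_fun measurableSet_Ioc fun τ hτ => ?_
      congr 1
      funext x
      have hτ' : 1 ≤ τ := h1τ1.trans hτ.1.le
      rw [hdt n τ hτ' x]
      simp only [hpd n τ hτ', hK1, hK2, U]
      ring
    rw [h2, integral_Ioc_eq_integral_Ioo]
    have h3 : ∫ t in I, ∫ x in Q d, (K1 n (t, x) + K2 n (t, x))
        = ∫ z in I ×ˢ Q d, (K1 n z + K2 n z) :=
      iter_eq (G := fun z => K1 n z + K2 n z) ((iK1 n).add (iK2 n))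
    rw [← hI, h3, integral_add (iK1 n) (iK2 n)]
    have h4 : 0 ≤ ∫ z in I ×ˢ Q d, K2 n z := by
      refine integral_nonneg fun z => ?_
      exact mul_nonneg (gg_deriv2_nonneg hq he _) (Finset.sum_nonneg fun i _ => sq_nonneg _)
    have h5 : ∫ z in I ×ˢ Q d, K1 n z = - (∫ z in I ×ˢ Q d, H n z) + ∫ z in I ×ˢ Q d, L n z := by
      have h6 : ∫ z in I ×ˢ Q d, (-(H n z) + L n z)
          = (∫ z in I ×ˢ Q d, -(H n z)) + ∫ z in I ×ˢ Q d, L n z :=
        integral_add (iH n).neg (iL n)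
      rw [← integral_neg, ← h6]
      congr 1
      funext z
      simp only [hK1, hH, hL]
      ring
    rw [h5, drift n]
    linarith
  -- the limit of the error
  have lim : Tendsto (fun n => ∫ z in I ×ˢ Q d, H n z) atTop (𝓝 0) := by
    have h1 : Tendsto (fun n => ∫ z in I ×ˢ Q d, H n z) atTop
        (𝓝 (∫ z in I ×ˢ Q d, deriv g (U w z) * (U F z + D0 z))) := by
      refine tendsto_integral_of_dominated_convergence (fun _ => M1 * (B2 + ∑ i, Bb * B3 i))
        (fun n => (mH n).aestronglyMeasurable) (integrableOn_const (prod_finite hIf)) ?_ ?_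
      · intro n
        rw [ae_restrict_iff' (hIm.prod (Q_meas d))]
        exact Eventually.of_forall fun z hz => bH n z hz.1
      · refine ae_restrict_of_ae ?_
        have a2 := (hMOLG d F bF).2.2.1
        have a3 : ∀ᵐ z : ℝ × (Fin d → ℝ), ∀ i,
            Tendsto (fun n => U (mol n (Vel S F i)) z) atTop (𝓝 (U (Vel S F i) z)) :=
          ae_all_iff.mpr fun i => (hMOLG d (Vel S F i) (bV i)).2.2.1
        filter_upwards [a2, a3] with z z2 z3
        have z1 : Tendsto (fun n => U (mol n w) z) atTop (𝓝 (U w z)) := mol_tendsto hwc z.1 z.2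
        exact ((g1c.tendsto _).comp z1).mul
          (z2.add (tendsto_finsetSum _ fun i _ => (z3 i).const_mul _))
    have h2 : ∫ z in I ×ˢ Q d, deriv g (U w z) * (U F z + D0 z) = 0 := by
      have h3 : ∀ z ∈ I ×ˢ Q d, deriv g (U w z) * (U F z + D0 z) = 0 := by
        intro z hz
        have h4 : U F z + D0 z = f (1 + T - z.1) z.2 := by
          show f (1 + T - z.1) z.2 - ∑ j, b (1 + T - z.1) z.2 j * v (1 + T - z.1) z.2 j
            + ∑ j, b (1 + T - z.1) z.2 j * Vel S F j z.1 z.2 = _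
          simp only [hvv]
          have : S - z.1 = 1 + T - z.1 := rfl
          simp only [this]
          ring
        have h5 : z.1 ∈ Ioo τ1 τ2 := hz.1
        rw [h4, hf _ (by rw [hτ2, hS] at h5; linarith [h5.2]) (by rw [hτ1, hS] at h5; linarith [h5.1]),
          mul_zero]
      rw [setIntegral_congr_fun (hIm.prod (Q_meas d)) h3]
      simp
    rw [h2] at h1
    exact h1
  -- the limit of the end values
  have fin : ∀ τ : ℝ, 1 ≤ τ → Tendsto (fun n => ∫ x in Q d, g (mol n w τ x)) atTop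
      (𝓝 (∫ x in Q d, g (w τ x))) := by
    intro τ hτ
    refine tendsto_integral_of_dominated_convergence (fun _ => M0) (fun n => ?_)
      (integrable_const _) ?_ ?_
    · have : Continuous (fun x => g (mol n w τ x)) :=
        g0c.comp ((cw n).comp (Continuous.prodMk continuous_const continuous_id))
      exact this.aestronglyMeasurable
    · intro n
      refine Eventually.of_forall fun x => ?_
      exact hM0 _ (abs_le.mp (hB1' n τ x hτ))
    · refine Eventually.of_forall fun x => ?_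
      exact (g0c.tendsto _).comp (mol_tendsto hwc τ x)
  have hlim := (fin τ2 (h1τ1.trans hτ12)).sub (fin τ1 h1τ1)
  have h0 := le_of_tendsto_of_tendsto' lim.neg hlim energy
  have e1 : ∀ x, w τ1 x = u t x := fun x => by rw [hwu, hτ1]; congr 1; ring
  have e2 : ∀ x, w τ2 x = u s x := fun x => by rw [hwu, hτ2]; congr 1; ring
  simp only [e1, e2, neg_zero] at h0
  linarith

theorem main (hWEQ : S_WEQ) (hKB : S_KB) (hMOLG : S_MOLG) (hMOLD : S_MOLD) (hENER : S_ENER)
    (hFREG : S_FREG) : S_FLQ := by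
  intro d T b f u v hT h q hq s t hs hst htT hf
  obtain ⟨bu, hu0, ⟨C, hC⟩, hc⟩ := hFREG d T b f u v hT h
  have hcont : Continuous (U u) := joint hC hc
  obtain ⟨B, hB⟩ := bu.bdd
  have hB0 : 0 ≤ B := (abs_nonneg _).trans (hB 0 0)
  have cu : ∀ r, Continuous (u r) := fun r =>
    hcont.comp (Continuous.prodMk continuous_const continuous_id)
  have hq0 : 0 ≤ q / 2 := by linarith
  have key : ∀ n : ℕ, ∫ x in Q d, |u t x| ^ q ≤ ∫ x in Q d, gg q (1 / ((n : ℝ) + 1)) (u s x) := by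
    intro n
    have he : 0 < 1 / ((n : ℝ) + 1) := by positivity
    refine le_trans ?_ (step hWEQ hKB hMOLG hMOLD hENER hT h hcont hq he hs hst htT hf)
    refine integral_mono_of_nonneg (Eventually.of_forall fun x => by positivity) ?_
      (Eventually.of_forall fun x => ?_)
    · exact Pool.Agent.Helper89.ND.int_Q ((gg_smooth he).continuous.comp (cu t))
    · show |u t x| ^ q ≤ gg q (1 / ((n : ℝ) + 1)) (u t x)
      rw [← abs_rpow_eq]
      exact Real.rpow_le_rpow (sq_nonneg _) (by linarith) hq0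
  have lim : Tendsto (fun n : ℕ => ∫ x in Q d, gg q (1 / ((n : ℝ) + 1)) (u s x)) atTop
      (𝓝 (∫ x in Q d, |u s x| ^ q)) := by
    refine tendsto_integral_of_dominated_convergence (fun _ => (B ^ 2 + 1) ^ (q / 2)) (fun n => ?_)
      (integrable_const _) ?_ ?_
    · have he : 0 < 1 / ((n : ℝ) + 1) := by positivity
      exact ((gg_smooth he).continuous.comp (cu s)).aestronglyMeasurable
    · intro n
      refine Eventually.of_forall fun x => ?_
      have he : 0 < 1 / ((n : ℝ) + 1) := by positivity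
      have he1 : 1 / ((n : ℝ) + 1) ≤ 1 := by
        rw [div_le_one (by positivity)]
        have : (0 : ℝ) ≤ n := Nat.cast_nonneg n
        linarith
      rw [Real.norm_eq_abs, abs_of_nonneg (by unfold gg; positivity)]
      refine Real.rpow_le_rpow (by positivity) (add_le_add ?_ he1) hq0
      rw [← sq_abs]
      exact pow_le_pow_left₀ (abs_nonneg _) (hB s x) 2
    · refine Eventually.of_forall fun x => ?_
      have h1 : Tendsto (fun n : ℕ => (u s x) ^ 2 + 1 / ((n : ℝ) + 1)) atTop (𝓝 ((u s x) ^ 2 + 0)) :=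
        tendsto_const_nhds.add (tendsto_one_div_add_atTop_nhds_zero_nat (𝕜 := ℝ))
      have h2 := h1.rpow_const (p := q / 2) (Or.inr hq0)
      rw [add_zero, abs_rpow_eq] at h2
      exact h2
  exact ge_of_tendsto' lim key

end

end Pool.Agent.Helper20.ND.FLQ
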